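import Mathlib
import Pool.Agent.NashF.Side

/-!
# Greedy linear forests

`Gr E X K P T`: `T` is a linear forest of edges of `E` from `X` to `K` which is maximal in the
following sense: an edge `z → k` (from `X` to `K`) which is not in `T` is blocked by an edge of `T`
with the same tail or the same head and of smaller weight `P`, or it closes a cycle with edges of
`T` of smaller weight. `gr_exists`: it exists (Kruskal's algorithm).
-/

set_option autoImplicit false

namespace Pool.Agent.NashSq

open Finset Relation Pool.Agent.NashW Pool.Agent.NashF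

variable {V : Type}

/-- adding an edge to a linear forest -/
theorem lfor_add {E F : V → V → Prop} (h : LFor E F) {z k : V} (hE : E z k)
    (hz : ∀ c, ¬ F z c) (hk : ∀ a, ¬ F a k) (hr : ¬ ReflTransGen F k z) :
    LFor E (fun a b => F a b ∨ (a = z ∧ b = k)) := by
  classical
  obtain ⟨g, hg⟩ := h.ht
  refine ⟨?_, ?_, ?_, ⟨fun v => g v + (if ReflTransGen F k v then g z + 1 else 0), ?_⟩⟩
  · rintro a b (h1 | ⟨rfl, rfl⟩)
    · exact h.sub _ _ h1
    · exact hE
  · rintro a b c (h1 | ⟨rfl, rfl⟩) (h2 | ⟨h3, rfl⟩)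
    · exact h.fn _ _ _ h1 h2
    · subst h3; exact absurd h1 (hz _)
    · exact absurd h2 (hz _)
    · rfl
  · rintro a b c (h1 | ⟨rfl, rfl⟩) (h2 | ⟨rfl, h3⟩)
    · exact h.inj _ _ _ h1 h2
    · subst h3; exact absurd h1 (hk _)
    · exact absurd h2 (hk _)
    · rfl
  · rintro a b (h1 | ⟨rfl, rfl⟩)
    · have := hg _ _ h1
      by_cases ha : ReflTransGen F k a
      · have hb : ReflTransGen F k b := ha.tail h1
        simp only [ha, hb, if_true]; omega
      · simp only [ha, if_false]
        split_ifs <;> omega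
    · simp only [hr, if_false, ReflTransGen.refl, if_true]; omega

/-- reversing a linear forest -/
theorem lfor_flip [Fintype V] {E F : V → V → Prop} (h : LFor E F) :
    LFor (fun a b => E b a) (fun a b => F b a) := by
  obtain ⟨g, hg⟩ := h.ht
  refine ⟨fun a b h' => h.sub _ _ h', fun a b c h1 h2 => h.inj _ _ _ h1 h2,
    fun a b c h1 h2 => h.fn _ _ _ h1 h2, ⟨fun v => (∑ u, g u) - g v, ?_⟩⟩
  intro a b hab
  have h3 := hg _ _ hab
  have h4 : g a ≤ ∑ u, g u :=
    Finset.single_le_sum (f := g) (fun _ _ => Nat.zero_le _) (Finset.mem_univ a)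
  show (∑ u, g u) - g a < (∑ u, g u) - g b
  omega

theorem rt_mono {R S : V → V → Prop} (h : ∀ a b, R a b → S a b) {a b : V}
    (hr : ReflTransGen R a b) : ReflTransGen S a b := ReflTransGen.lift id h a b hr

/-- the vertices from which a given vertex can be reached form a chain -/
theorem chain {F : V → V → Prop} (hinj : ∀ a b c, F a c → F b c → a = b) {u v z : V}
    (hu : ReflTransGen F u z) (hv : ReflTransGen F v z) :
    ReflTransGen F u v ∨ ReflTransGen F v u := by
  have hU : Relator.RightUnique (Function.swap F) := fun {a b c} h1 h2 => hinj _ _ _ h1 h2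
  have h1 : ReflTransGen (Function.swap F) z u := (reflTransGen_swap).mpr hu
  have h2 : ReflTransGen (Function.swap F) z v := (reflTransGen_swap).mpr hv
  rcases ReflTransGen.total_of_right_unique hU h1 h2 with h | h
  · right; exact (reflTransGen_swap).mp h
  · left; exact (reflTransGen_swap).mp h

/-- the edges of weight less than `n` -/
def Lo (P : V → V → ℕ) (T : V → V → Prop) (n : ℕ) (a b : V) : Prop := T a b ∧ P a b < n

theorem lo_mono {P : V → V → ℕ} {T : V → V → Prop} {n m : ℕ} (h : n ≤ m) {a b : V}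
    (hr : ReflTransGen (Lo P T n) a b) : ReflTransGen (Lo P T m) a b :=
  rt_mono (fun _ _ h' => ⟨h'.1, lt_of_lt_of_le h'.2 h⟩) hr

theorem lo_all {P : V → V → ℕ} {T : V → V → Prop} {n : ℕ} {a b : V}
    (hr : ReflTransGen (Lo P T n) a b) : ReflTransGen T a b :=
  rt_mono (fun _ _ h' => h'.1) hr

/-- greedy linear forests -/
structure Gr (E : V → V → Prop) (X K : Finset V) (P : V → V → ℕ) (T : V → V → Prop) : Prop where
  lf : LFor E T
  row : ∀ a b, T a b → a ∈ X
  col : ∀ a b, T a b → b ∈ K
  max : ∀ z ∈ X, ∀ k ∈ K, E z k → T z k ∨ (∃ c, T z c ∧ P z c < P z k) ∨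
    (∃ a, T a k ∧ P a k < P z k) ∨ ReflTransGen (Lo P T (P z k)) k z

theorem gr_step (E : V → V → Prop) (X K : Finset V) (P : V → V → ℕ)
    (hP : ∀ a b a' b', P a b = P a' b' → a = a' ∧ b = b') (n : ℕ) :
    ∃ T : V → V → Prop, LFor E T ∧ (∀ a b, T a b → a ∈ X) ∧ (∀ a b, T a b → b ∈ K) ∧
      (∀ a b, T a b → P a b < n) ∧
      ∀ z ∈ X, ∀ k ∈ K, E z k → P z k < n → T z k ∨ (∃ c, T z c ∧ P z c < P z k) ∨
        (∃ a, T a k ∧ P a k < P z k) ∨ ReflTransGen (Lo P T (P z k)) k z := by
  induction n with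
  | zero =>
    refine ⟨fun _ _ => False, ⟨fun _ _ h => h.elim, fun _ _ _ h => h.elim, fun _ _ _ h => h.elim,
      ⟨fun _ => 0, fun _ _ h => h.elim⟩⟩, fun _ _ h => h.elim, fun _ _ h => h.elim,
      fun _ _ h => h.elim, ?_⟩
    intro z _ k _ _ h
    exact absurd h (Nat.not_lt_zero _)
  | succ n ih =>
    obtain ⟨T, hT, hX, hK, hlt, hmax⟩ := ih
    by_cases hex : ∃ z ∈ X, ∃ k ∈ K, E z k ∧ P z k = n ∧ (∀ c, ¬ T z c) ∧ (∀ a, ¬ T a k) ∧
        ¬ ReflTransGen T k z
    · obtain ⟨z₀, hz₀, k₀, hk₀, hE, hn, h1, h2, h3⟩ := hex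
      refine ⟨fun a b => T a b ∨ (a = z₀ ∧ b = k₀), lfor_add hT hE h1 h2 h3, ?_, ?_, ?_, ?_⟩
      · rintro a b (h | ⟨rfl, rfl⟩)
        · exact hX _ _ h
        · exact hz₀
      · rintro a b (h | ⟨rfl, rfl⟩)
        · exact hK _ _ h
        · exact hk₀
      · rintro a b (h | ⟨rfl, rfl⟩)
        · have := hlt _ _ h; omega
        · omega
      · intro z hz k hk hEzk hlt'
        by_cases hcase : P z k = n
        · left; right
          exact hP _ _ _ _ (hcase.trans hn.symm)
        · rcases hmax z hz k hk hEzk (by omega) with h | ⟨c, hc, h⟩ | ⟨a, ha, h⟩ | h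
          · exact Or.inl (Or.inl h)
          · exact Or.inr (Or.inl ⟨c, Or.inl hc, h⟩)
          · exact Or.inr (Or.inr (Or.inl ⟨a, Or.inl ha, h⟩))
          · exact Or.inr (Or.inr (Or.inr (rt_mono (fun _ _ h' => ⟨Or.inl h'.1, h'.2⟩) h)))
    · refine ⟨T, hT, hX, hK, ?_, ?_⟩
      · intro a b h
        have := hlt _ _ h; omega
      · intro z hz k hk hEzk hlt'
        by_cases hcase : P z k = n
        · by_cases h1 : ∀ c, ¬ T z c
          · by_cases h2 : ∀ a, ¬ T a k
            · have h3 : ReflTransGen T k z := by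
                by_contra h3
                exact hex ⟨z, hz, k, hk, hEzk, hcase, h1, h2, h3⟩
              right; right; right
              refine rt_mono ?_ h3
              intro a b hab
              exact ⟨hab, by rw [hcase]; exact hlt _ _ hab⟩
            · push Not at h2
              obtain ⟨a, ha⟩ := h2
              right; right; left
              exact ⟨a, ha, by rw [hcase]; exact hlt _ _ ha⟩
          · push Not at h1
            obtain ⟨c, hc⟩ := h1
            right; left
            exact ⟨c, hc, by rw [hcase]; exact hlt _ _ hc⟩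
        · exact hmax z hz k hk hEzk (by omega)

theorem gr_exists [Fintype V] (E : V → V → Prop) (X K : Finset V) (P : V → V → ℕ)
    (hP : ∀ a b a' b', P a b = P a' b' → a = a' ∧ b = b') : ∃ T, Gr E X K P T := by
  obtain ⟨T, h1, h2, h3, _, h5⟩ := gr_step E X K P hP ((∑ a, ∑ b, P a b) + 1)
  refine ⟨T, h1, h2, h3, ?_⟩
  intro z hz k hk hE
  apply h5 z hz k hk hE
  have h6 : P z k ≤ ∑ b, P z b :=
    Finset.single_le_sum (f := fun b => P z b) (fun _ _ => Nat.zero_le _) (Finset.mem_univ k)
  have h7 : ∑ b, P z b ≤ ∑ a, ∑ b, P a b :=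
    Finset.single_le_sum (f := fun a => ∑ b, P a b) (fun _ _ => Nat.zero_le _)
      (Finset.mem_univ z)
  omega

theorem Gr.flip [Fintype V] {E : V → V → Prop} {X K : Finset V} {P : V → V → ℕ}
    {T : V → V → Prop} (h : Gr E X K P T) :
    Gr (fun a b => E b a) K X (fun a b => P b a) (fun a b => T b a) := by
  refine ⟨lfor_flip h.lf, fun a b h' => h.col _ _ h', fun a b h' => h.row _ _ h', ?_⟩
  intro k hk z hz hE
  rcases h.max z hz k hk hE with h1 | ⟨c, hc, h1⟩ | ⟨a, ha, h1⟩ | h1
  · exact Or.inl h1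
  · exact Or.inr (Or.inr (Or.inl ⟨c, hc, h1⟩))
  · exact Or.inr (Or.inl ⟨a, ha, h1⟩)
  · right; right; right
    have h2 : ReflTransGen (Function.swap (Lo P T (P z k))) z k := (reflTransGen_swap).mpr h1
    exact rt_mono (fun a b h' => h') h2

/-- the relation of the edges inside `X ∩ K` -/
def In (E : V → V → Prop) (X K : Finset V) (a b : V) : Prop :=
  (a ∈ X ∧ a ∈ K) ∧ (b ∈ X ∧ b ∈ K) ∧ E a b

theorem reach_head {E : V → V → Prop} {X K : Finset V} {P : V → V → ℕ}
    {T : V → V → Prop} (h : Gr E X K P T) {u v : V} (hu : u ∈ K) (hr : ReflTransGen T u v) :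
    v ∈ K := by
  induction hr with
  | refl => exact hu
  | tail _ h2 _ => exact h.col _ _ h2

theorem reach_tail {E : V → V → Prop} {X K : Finset V} {P : V → V → ℕ}
    {T : V → V → Prop} (h : Gr E X K P T) {u v : V} (hv : v ∈ X) (hr : ReflTransGen T u v) :
    u ∈ X := by
  induction hr with
  | refl => exact hv
  | tail _ h2 ih => exact ih (h.row _ _ h2)

theorem reach_in {E : V → V → Prop} {X K : Finset V} {P : V → V → ℕ}
    {T : V → V → Prop} (h : Gr E X K P T) {u v : V} (hu : u ∈ K) (hv : v ∈ X)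
    (hr : ReflTransGen T u v) : ReflTransGen (In E X K) u v := by
  induction hr with
  | refl => exact ReflTransGen.refl
  | tail h1 h2 ih =>
    have h3 := h.row _ _ h2
    exact (ih h3).tail ⟨⟨h3, reach_head h hu h1⟩, ⟨hv, h.col _ _ h2⟩, h.lf.sub _ _ h2⟩

/-- the vertices between `k` and `z` are on a cycle if `z → k` is an edge -/
theorem on_cycle {E : V → V → Prop} {X K : Finset V} {P : V → V → ℕ}
    {T : V → V → Prop} (h : Gr E X K P T) {z k v : V} (hz : z ∈ X) (hk : k ∈ K) (hE : E z k)
    (h1 : ReflTransGen T k v) (h2 : ReflTransGen T v z) : TransGen (In E X K) v v := by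
  have hvK : v ∈ K := reach_head h hk h1
  have hvX : v ∈ X := reach_tail h hz h2
  have hzK : z ∈ K := reach_head h hvK h2
  have hkX : k ∈ X := reach_tail h hvX h1
  have h3 := reach_in h hk hvX h1
  have h4 := reach_in h hvK hz h2
  have h5 : In E X K z k := ⟨⟨hz, hzK⟩, ⟨hkX, hk⟩, hE⟩
  exact TransGen.trans_left (TransGen.trans_right h4 (TransGen.single h5)) h3

end Pool.Agent.NashSq
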