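import Mathlib
import Pool.Agent.NashSq.Greedy

/-!
# Few closings

For a greedy linear forest with respect to a weight that is compatible with a sum of potentials,
the number of closings at an uncovered row is small.
-/

set_option autoImplicit false

namespace Pool.Agent.NashSq

open Finset Relation Pool.Agent.NashW Pool.Agent.NashF

variable {V : Type}

open Classical in
theorem tele (S : Finset V) (γ : V → ℕ) (g D : V → ℝ) (g0 : ℝ) (hg : ∀ k ∈ S, g0 ≤ g k)
    (hinj : ∀ k ∈ S, ∀ k' ∈ S, γ k = γ k' → k = k')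
    (h : ∀ k ∈ S, ∀ k' ∈ S, γ k < γ k' → D k + g k ≤ g k') :
    ∀ n : ℕ, ∀ k ∈ S, γ k = n → g0 + ∑ k' ∈ S.filter (fun k' => γ k' < γ k), D k' ≤ g k := by
  intro n
  induction n using Nat.strong_induction_on with
  | _ n ih =>
  intro k hk hn
  by_cases hne : (S.filter (fun k' => γ k' < γ k)).Nonempty
  · obtain ⟨l, hl, hmax⟩ := Finset.exists_max_image _ γ hne
    rw [Finset.mem_filter] at hl
    have h1 : S.filter (fun k' => γ k' < γ k) = insert l (S.filter (fun k' => γ k' < γ l)) := by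
      ext v
      rw [Finset.mem_insert, Finset.mem_filter, Finset.mem_filter]
      constructor
      · rintro ⟨hv, hvk⟩
        have h2 := hmax v (by rw [Finset.mem_filter]; exact ⟨hv, hvk⟩)
        rcases Nat.lt_or_ge (γ v) (γ l) with h3 | h3
        · exact Or.inr ⟨hv, h3⟩
        · exact Or.inl (hinj v hv l hl.1 (by omega))
      · rintro (rfl | ⟨hv, hvl⟩)
        · exact hl
        · exact ⟨hv, by omega⟩
    rw [h1, Finset.sum_insert (by rw [Finset.mem_filter]; rintro ⟨_, h2⟩; omega)]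
    have h2 := ih (γ l) (by omega) l hl.1 rfl
    have h3 := h l hl.1 k hk hl.2
    linarith
  · rw [Finset.not_nonempty_iff_eq_empty] at hne
    rw [hne, Finset.sum_empty, add_zero]
    exact hg k hk

theorem sum_set (f : ℕ → ℝ) (hf : Monotone f) (r : ℕ) (S : Finset ℕ) (h : ∀ x ∈ S, r < x) :
    ∑ j ∈ Finset.range S.card, (f (r + j + 1) - f r) ≤ ∑ x ∈ S, (f x - f r) := by
  induction S using Finset.induction_on_max with
  | empty => simp
  | insert a s hlt ih =>
    have ha : a ∉ s := fun h' => lt_irrefl _ (hlt a h')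
    rw [Finset.card_insert_of_notMem ha, Finset.sum_insert ha, Finset.sum_range_succ]
    have h1 := ih (fun x hx => h x (Finset.mem_insert_of_mem hx))
    have h2 : r + s.card + 1 ≤ a := by
      have h3 : s ⊆ Finset.Ico (r + 1) a := by
        intro x hx
        rw [Finset.mem_Ico]
        exact ⟨h x (Finset.mem_insert_of_mem hx), hlt x hx⟩
      have h4 := Finset.card_le_card h3
      have h5 := h a (Finset.mem_insert_self _ _)
      rw [Nat.card_Ico] at h4
      omega
    have h3 := hf h2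
    linarith

open Classical in
theorem sum_fun (f : ℕ → ℝ) (hf : Monotone f) (r : ℕ) (S : Finset V) (d : V → ℕ)
    (h : ∀ x ∈ S, r < d x) (hinj : ∀ x ∈ S, ∀ y ∈ S, d x = d y → x = y) :
    ∑ j ∈ Finset.range S.card, (f (r + j + 1) - f r) ≤ ∑ x ∈ S, (f (d x) - f r) := by
  have h1 := sum_set f hf r (S.image d) (by
    intro x hx
    rw [Finset.mem_image] at hx
    obtain ⟨y, hy, rfl⟩ := hx
    exact h y hy)
  rw [Finset.card_image_of_injOn (fun x hx y hy => hinj x hx y hy),
    Finset.sum_image (fun x hx y hy => hinj x hx y hy)] at h1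
  exact h1

theorem sum_range_mono (f : ℕ → ℝ) (hf : Monotone f) (r m n : ℕ) (h : m ≤ n) :
    ∑ j ∈ Finset.range m, (f (r + j + 1) - f r) ≤ ∑ j ∈ Finset.range n, (f (r + j + 1) - f r) := by
  apply Finset.sum_le_sum_of_subset_of_nonneg (Finset.range_subset_range.mpr h)
  intro j _ _
  have := hf (show r ≤ r + j + 1 by omega)
  linarith

open Classical in
/-- the closings at the row `z` -/
noncomputable def Cl (E : V → V → Prop) (K : Finset V) (P : V → V → ℕ) (T : V → V → Prop)
    (z : V) : Finset V :=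
  K.filter (fun k => E z k ∧ (∀ a, T a k → ¬ P a k < P z k) ∧
    ReflTransGen (Lo P T (P z k)) k z)

theorem mem_Cl (E : V → V → Prop) (K : Finset V) (P : V → V → ℕ) (T : V → V → Prop) (z k : V) :
    k ∈ Cl E K P T z ↔ k ∈ K ∧ E z k ∧ (∀ a, T a k → ¬ P a k < P z k) ∧
      ReflTransGen (Lo P T (P z k)) k z := by
  classical
  unfold Cl
  rw [Finset.mem_filter]

variable {E : V → V → Prop} {X K : Finset V} {P : V → V → ℕ} {T : V → V → Prop}

theorem cl_next (hG : Gr E X K P T) {z k k' : V}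
    (hk : k ∈ Cl E K P T z) (hk' : k' ∈ Cl E K P T z) (hlt : P z k < P z k') :
    ∃ y, T y k ∧ P y k < P z k' ∧ ReflTransGen T k' y := by
  rw [mem_Cl] at hk hk'
  obtain ⟨_, _, h1, h2⟩ := hk
  obtain ⟨_, _, h1', h2'⟩ := hk'
  have hne : k ≠ k' := by rintro rfl; exact lt_irrefl _ hlt
  rcases chain (F := Lo P T (P z k')) (fun a b c h h' => hG.lf.inj _ _ _ h.1 h'.1)
    (lo_mono hlt.le h2) h2' with h | h
  · rcases ReflTransGen.cases_tail h with h3 | ⟨b, _, h3⟩
    · exact absurd h3.symm hne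
    · exact absurd h3.2 (h1' _ h3.1)
  · rcases ReflTransGen.cases_tail h with h3 | ⟨b, h4, h3⟩
    · exact absurd h3 hne
    · exact ⟨b, h3.1, h3.2, lo_all h4⟩

open Classical in
/-- **Few closings.** The potentials are functions `f`, `g` of the ranks `r`, `c`. -/
theorem cl_bound (hG : Gr E X K P T) (W : Finset V)
    (hW : ∀ v, TransGen (In E X K) v v → v ∈ W) (ρ γ r c : V → ℕ) (f g : ℕ → ℝ)
    (hf : Monotone f) (hg : Monotone g)
    (hPr : ∀ a b b', P a b < P a b' ↔ γ b < γ b')
    (hPc : ∀ a a' b, P a b < P a' b ↔ ρ a < ρ a')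
    (hPi : ∀ a b a' b', P a b = P a' b' → a = a' ∧ b = b')
    (hPm : ∀ a b a' b', P a b < P a' b' → f (r a) + g (c b) ≤ f (r a') + g (c b'))
    (hr : ∀ u ∈ W, ∀ v ∈ W, ρ u < ρ v → r u < r v)
    (hc1 : ∀ v ∈ W, 1 ≤ c v) (N : ℕ) (hc2 : ∀ v ∈ W, c v ≤ N)
    (z : V) (hzX : z ∈ X) (hz : ∀ b, ¬ T z b) (m : ℕ) (hm : (Cl E K P T z).card = m + 1) :
    z ∈ W ∧ (∀ k ∈ Cl E K P T z, k ∈ W) ∧
      ∑ j ∈ Finset.range m, (f (r z + j + 1) - f (r z)) ≤ g N - g 1 := by
  have hcW : ∀ k ∈ Cl E K P T z, k ∈ W := by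
    intro k hk
    rw [mem_Cl] at hk
    exact hW _ (on_cycle hG hzX hk.1 hk.2.1 ReflTransGen.refl (lo_all hk.2.2.2))
  have hne : (Cl E K P T z).Nonempty := by rw [← Finset.card_pos]; omega
  have hzW : z ∈ W := by
    obtain ⟨k, hk⟩ := hne
    rw [mem_Cl] at hk
    exact hW _ (on_cycle hG hzX hk.1 hk.2.1 (lo_all hk.2.2.2) ReflTransGen.refl)
  refine ⟨hzW, hcW, ?_⟩
  have hγinj : ∀ k k', γ k = γ k' → k = k' := by
    intro k k' h
    have h1 : ¬ P z k < P z k' := by rw [hPr]; omega
    have h2 : ¬ P z k' < P z k := by rw [hPr]; omega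
    exact (hPi _ _ _ _ (by omega : P z k = P z k')).2
  obtain ⟨l, hl, hmax⟩ := Finset.exists_max_image _ γ hne
  -- the tail of the edge into a closing
  obtain ⟨y, hy⟩ : ∃ y : V → V, ∀ k, (∃ a, T a k) → T (y k) k :=
    ⟨fun k => if h : ∃ a, T a k then Classical.choose h else k, by
      intro k h
      simp only [dif_pos h]
      exact Classical.choose_spec h⟩
  have key : ∀ k ∈ Cl E K P T z, ∀ k' ∈ Cl E K P T z, γ k < γ k' →
      T (y k) k ∧ P (y k) k < P z k' ∧ y k ∈ W ∧ ρ z < ρ (y k) := by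
    intro k hk k' hk' hlt
    obtain ⟨a, ha, h1, h2⟩ := cl_next hG hk hk' ((hPr z k k').mpr hlt)
    have h3 := hy k ⟨a, ha⟩
    have h4 : y k = a := hG.lf.inj _ _ _ h3 ha
    rw [h4]
    rw [mem_Cl] at hk hk'
    refine ⟨ha, h1, ?_, ?_⟩
    · exact hW _ (on_cycle hG hzX hk'.1 hk'.2.1 h2
        ((ReflTransGen.single ha).trans (lo_all hk.2.2.2)))
    · rw [← hPc z a k]
      have h5 := hk.2.2.1 a ha
      have h6 : P z k ≠ P a k := by
        intro h6
        have := (hPi _ _ _ _ h6).1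
        subst this
        exact hz _ ha
      omega
  -- the potential differences
  have hD : ∀ k ∈ Cl E K P T z, ∀ k' ∈ Cl E K P T z, γ k < γ k' →
      (f (r (y k)) - f (r z)) + g (c k) ≤ g (c k') := by
    intro k hk k' hk' hlt
    obtain ⟨_, h1, _, _⟩ := key k hk k' hk' hlt
    have h4 := hPm _ _ _ _ h1
    linarith
  have h1 := tele (Cl E K P T z) γ (fun k => g (c k)) (fun k => f (r (y k)) - f (r z)) (g 1)
    (fun k hk => hg (hc1 k (hcW k hk)))
    (fun k _ k' _ h => hγinj k k' h) hD (γ l) l hl rfl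
  have h2 : (Cl E K P T z).filter (fun k' => γ k' < γ l) = (Cl E K P T z).erase l := by
    ext v
    rw [Finset.mem_filter, Finset.mem_erase]
    constructor
    · rintro ⟨hv, h3⟩
      exact ⟨by rintro rfl; omega, hv⟩
    · rintro ⟨h3, hv⟩
      have h4 := hmax v hv
      refine ⟨hv, ?_⟩
      rcases Nat.lt_or_ge (γ v) (γ l) with h5 | h5
      · exact h5
      · exact absurd (hγinj v l (by omega)) h3
  rw [h2] at h1
  have h3 : ((Cl E K P T z).erase l).card = m := by
    rw [Finset.card_erase_of_mem hl, hm]; rfl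
  have hlt : ∀ k ∈ (Cl E K P T z).erase l, k ∈ Cl E K P T z ∧ γ k < γ l := by
    intro k hk
    rw [← h2, Finset.mem_filter] at hk
    exact hk
  have h4 := sum_fun f hf (r z) ((Cl E K P T z).erase l) (fun k => r (y k))
    (fun k hk => by
      obtain ⟨_, _, h5, h6⟩ := key k (hlt k hk).1 l hl (hlt k hk).2
      exact hr z hzW (y k) h5 h6)
    (fun k hk k' hk' h => by
      obtain ⟨ht, _, h5, h6⟩ := key k (hlt k hk).1 l hl (hlt k hk).2
      obtain ⟨ht', _, h5', h6'⟩ := key k' (hlt k' hk').1 l hl (hlt k' hk').2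
      have h9 : r (y k) = r (y k') := h
      have h10 : y k = y k' := by
        rcases Nat.lt_trichotomy (ρ (y k)) (ρ (y k')) with h11 | h11 | h11
        · have := hr _ h5 _ h5' h11; omega
        · have h12 : ¬ P (y k) z < P (y k') z := by rw [hPc]; omega
          have h13 : ¬ P (y k') z < P (y k) z := by rw [hPc]; omega
          exact (hPi _ _ _ _ (by omega : P (y k) z = P (y k') z)).1
        · have := hr _ h5' _ h5 h11; omega
      rw [← h10] at ht'
      exact hG.lf.fn _ _ _ ht ht')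
  rw [h3] at h4
  have h5 := hg (hc2 l (hcW l hl))
  linarith

end Pool.Agent.NashSq
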