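import Mathlib
import Pool.Agent.NashSq.Bound

/-!
# Inserting the outer edges
-/

set_option autoImplicit false

namespace Pool.Agent.NashSq

open Finset Relation Pool.Agent.NashW Pool.Agent.NashF

variable {V : Type} [Fintype V]

open Classical in
/-- Insertion of edges from the uncovered rows `Z` to vertices outside `K`, in the order `ρ`. All
edges of the forest start in `A`. -/
theorem ins (E : V → V → Prop) (hloop : ∀ v, ¬ E v v) (K A : Finset V) (ρ : V → ℕ)
    (hρ : ∀ u v, ρ u = ρ v → u = v) :
    ∀ (n : ℕ) (Z : Finset V) (F : V → V → Prop) (U : Finset V), Z.card = n → LFor E F →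
    (∀ a b, F a b → a ∈ A) → Z ⊆ A → (∀ z ∈ Z, ∀ b, ¬ F z b) →
    (∀ a v, v ∉ K → F a v → v ∈ U) →
    (∀ z ∈ Z, 1 + U.card + (Z.filter (fun x => ρ x < ρ z)).card +
      (if z ∈ K ∧ ∃ e ∈ A, e ∉ K ∧ E z e then 1 else 0) ≤
        (univ.filter (fun v => v ∉ K ∧ E z v)).card) →
    ∃ F' : V → V → Prop, LFor E F' ∧ (∀ a b, F a b → F' a b) ∧ (∀ z ∈ Z, ∃ b, F' z b) ∧
      (∀ a b, F' a b → F a b ∨ (a ∈ Z ∧ b ∉ K)) := by
  intro n
  induction n with
  | zero =>
    intro Z F U hn hF _ _ _ _ _
    rw [Finset.card_eq_zero] at hn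
    subst hn
    exact ⟨F, hF, fun _ _ h => h, by simp, fun _ _ h => Or.inl h⟩
  | succ n ih =>
    intro Z F U hn hF hA hZA hZ hU hout
    have hne : Z.Nonempty := by rw [← Finset.card_pos]; omega
    obtain ⟨z, hzZ, hmin⟩ := Finset.exists_min_image Z ρ hne
    -- a good outer head
    obtain ⟨v, hvK, hEv, hvh, hvr⟩ : ∃ v, v ∉ K ∧ E z v ∧ (∀ a, ¬ F a v) ∧
        ¬ ReflTransGen F v z := by
      by_contra hcon
      push Not at hcon
      have h1 := hout z hzZ
      -- the outer neighbours are used or reach `z`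
      have hsplit : univ.filter (fun v => v ∉ K ∧ E z v) ⊆
          (univ.filter (fun v => (v ∉ K ∧ ∃ a, F a v) ∧ E z v)) ∪
          (univ.filter (fun v => v ∉ K ∧ E z v ∧ (∀ a, ¬ F a v) ∧ ReflTransGen F v z)) := by
        intro v hv
        rw [Finset.mem_filter] at hv
        rw [Finset.mem_union, Finset.mem_filter, Finset.mem_filter]
        by_cases h : ∃ a, F a v
        · exact Or.inl ⟨Finset.mem_univ _, ⟨hv.2.1, h⟩, hv.2.2⟩
        · push Not at h
          exact Or.inr ⟨Finset.mem_univ _, hv.2.1, hv.2.2, h, hcon v hv.2.1 hv.2.2 h⟩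
      have h2 := (Finset.card_le_card hsplit).trans (Finset.card_union_le _ _)
      have h3 : (univ.filter (fun v => (v ∉ K ∧ ∃ a, F a v) ∧ E z v)).card ≤ U.card := by
        apply Finset.card_le_card
        intro v hv
        rw [Finset.mem_filter] at hv
        obtain ⟨_, ⟨hvK, a, ha⟩, _⟩ := hv
        exact hU a v hvK ha
      -- at most one vertex of the second kind
      have hone : ∀ u v, (∀ a, ¬ F a u) → ReflTransGen F u z → (∀ a, ¬ F a v) →
          ReflTransGen F v z → u = v := by
        intro u v hu hu' hv hv'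
        rcases chain (F := F) (fun a b c h h' => hF.inj a b c h h') hu' hv' with h | h
        · rcases ReflTransGen.cases_tail h with h4 | ⟨b, _, h4⟩
          · exact h4.symm
          · exact absurd h4 (hv _)
        · rcases ReflTransGen.cases_tail h with h4 | ⟨b, _, h4⟩
          · exact h4
          · exact absurd h4 (hu _)
      have h4 : (univ.filter (fun v => v ∉ K ∧ E z v ∧ (∀ a, ¬ F a v) ∧
          ReflTransGen F v z)).card ≤ 1 := by
        rw [Finset.card_le_one]
        intro u hu v hv
        rw [Finset.mem_filter] at hu hv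
        exact hone u v hu.2.2.2.1 hu.2.2.2.2 hv.2.2.2.1 hv.2.2.2.2
      by_cases hemp : (univ.filter (fun v => v ∉ K ∧ E z v ∧ (∀ a, ¬ F a v) ∧
          ReflTransGen F v z)) = ∅
      · rw [hemp, Finset.card_empty] at h2
        omega
      · obtain ⟨s, hs⟩ := Finset.nonempty_iff_ne_empty.mpr hemp
        rw [Finset.mem_filter] at hs
        obtain ⟨_, hsK, hEs, hsh, hsr⟩ := hs
        have hsz : s ≠ z := by rintro rfl; exact hloop _ hEs
        -- `s` has an outgoing edge
        obtain ⟨b, hb⟩ : ∃ b, F s b := by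
          rcases ReflTransGen.cases_head hsr with h5 | ⟨b, h5, _⟩
          · exact absurd h5 hsz
          · exact ⟨b, h5⟩
        -- `z` has an incoming edge
        have hzh : ∃ a, F a z := by
          rcases ReflTransGen.cases_tail hsr with h5 | ⟨b, _, h5⟩
          · exact absurd h5.symm hsz
          · exact ⟨b, h5⟩
        by_cases hzK : z ∈ K
        · rw [if_pos ⟨hzK, s, hA _ _ hb, hsK, hEs⟩] at h1
          omega
        · have h5 : (univ.filter (fun v => (v ∉ K ∧ ∃ a, F a v) ∧ E z v)).card + 1 ≤ U.card := by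
            apply Nat.succ_le_of_lt
            apply Finset.card_lt_card
            rw [Finset.ssubset_iff_of_subset]
            · refine ⟨z, ?_, ?_⟩
              · obtain ⟨a, ha⟩ := hzh
                exact hU a z hzK ha
              · rw [Finset.mem_filter]; rintro ⟨_, _, h6⟩; exact hloop _ h6
            · intro v hv
              rw [Finset.mem_filter] at hv
              obtain ⟨_, ⟨hvK, a, ha⟩, _⟩ := hv
              exact hU a v hvK ha
          omega
    have hF1 := lfor_add hF hEv (hZ z hzZ) hvh hvr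
    obtain ⟨F', h1, h2, h3, h4⟩ := ih (Z.erase z) (fun a b => F a b ∨ (a = z ∧ b = v)) (insert v U)
      (by rw [Finset.card_erase_of_mem hzZ]; omega) hF1
      (by
        rintro a b (h | ⟨rfl, rfl⟩)
        · exact hA _ _ h
        · exact hZA hzZ)
      (fun x hx => hZA (Finset.mem_of_mem_erase hx))
      (by
        rintro x hx b (h | ⟨h, _⟩)
        · exact hZ x (Finset.mem_of_mem_erase hx) _ h
        · exact (Finset.ne_of_mem_erase hx) h)
      (by
        rintro a w hwK (h | ⟨_, rfl⟩)
        · exact Finset.mem_insert_of_mem (hU a w hwK h)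
        · exact Finset.mem_insert_self _ _)
      (by
        intro x hx
        have h5 := hout x (Finset.mem_of_mem_erase hx)
        have hxZ := Finset.mem_of_mem_erase hx
        have hlt : ρ z < ρ x := by
          have h6 := hmin x hxZ
          rcases Nat.lt_or_ge (ρ z) (ρ x) with h7 | h7
          · exact h7
          · exact absurd (hρ x z (by omega)) (Finset.ne_of_mem_erase hx)
        have h6 : (Z.erase z).filter (fun w => ρ w < ρ x) =
            (Z.filter (fun w => ρ w < ρ x)).erase z := by
          ext w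
          rw [Finset.mem_filter, Finset.mem_erase, Finset.mem_erase, Finset.mem_filter]
          tauto
        rw [h6, Finset.card_erase_of_mem (by rw [Finset.mem_filter]; exact ⟨hzZ, hlt⟩)]
        have h7 : 1 ≤ (Z.filter (fun w => ρ w < ρ x)).card :=
          Finset.card_pos.mpr ⟨z, by rw [Finset.mem_filter]; exact ⟨hzZ, hlt⟩⟩
        have h8 := Finset.card_insert_le v U
        omega)
    refine ⟨F', h1, fun a b h => h2 _ _ (Or.inl h), ?_, ?_⟩
    · intro x hx
      by_cases hxz : x = z
      · exact ⟨v, h2 _ _ (Or.inr ⟨hxz, rfl⟩)⟩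
      · exact h3 x (Finset.mem_erase.mpr ⟨hxz, hx⟩)
    · intro a b h
      rcases h4 a b h with (h5 | ⟨rfl, rfl⟩) | ⟨h5, h6⟩
      · exact Or.inl h5
      · exact Or.inr ⟨hzZ, hvK⟩
      · exact Or.inr ⟨Finset.mem_of_mem_erase h5, h6⟩

open Classical in
/-- **Outer degrees.** An uncovered row of a greedy linear forest has many heads outside `K`. -/
theorem outer_deg {E : V → V → Prop} {X K : Finset V} {P : V → V → ℕ} {T : V → V → Prop}
    (hG : Gr E X K P T) (ρ : V → ℕ)
    (hPc : ∀ a a' b, P a b < P a' b ↔ ρ a < ρ a') (z : V) (hzX : z ∈ X) (hz : ∀ b, ¬ T z b) :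
    od E z + ((X.filter (fun x => ∀ b, ¬ T x b)).filter (fun x => ρ x < ρ z)).card ≤
      (univ.filter (fun v => v ∉ K ∧ E z v)).card + (X.filter (fun x => ρ x < ρ z)).card +
        (Cl E K P T z).card := by
  have h1 : univ.filter (fun v => E z v) ⊆
      (univ.filter (fun v => v ∉ K ∧ E z v)) ∪
      ((univ.filter (fun v => ∃ a, T a v ∧ ρ a < ρ z)) ∪ Cl E K P T z) := by
    intro v hv
    rw [Finset.mem_filter] at hv
    rw [Finset.mem_union, Finset.mem_union, Finset.mem_filter, Finset.mem_filter, mem_Cl]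
    by_cases hvK : v ∈ K
    · right
      rcases hG.max z hzX v hvK hv.2 with h | ⟨c, h, _⟩ | ⟨a, h, h'⟩ | h
      · exact absurd h (hz _)
      · exact absurd h (hz _)
      · left
        exact ⟨Finset.mem_univ _, a, h, (hPc _ _ _).mp h'⟩
      · by_cases h2 : ∃ a, T a v ∧ P a v < P z v
        · obtain ⟨a, h, h'⟩ := h2
          left
          exact ⟨Finset.mem_univ _, a, h, (hPc _ _ _).mp h'⟩
        · push Not at h2
          right
          exact ⟨hvK, hv.2, fun a ha => by have := h2 a ha; omega, h⟩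
    · left
      exact ⟨Finset.mem_univ _, hvK, hv.2⟩
  have h2 := Finset.card_le_card h1
  have h3 := Finset.card_union_le (univ.filter (fun v => v ∉ K ∧ E z v))
    ((univ.filter (fun v => ∃ a, T a v ∧ ρ a < ρ z)) ∪ Cl E K P T z)
  have h4 := Finset.card_union_le (univ.filter (fun v => ∃ a, T a v ∧ ρ a < ρ z)) (Cl E K P T z)
  have h5 : (univ.filter (fun v => ∃ a, T a v ∧ ρ a < ρ z)).card ≤
      (X.filter (fun x => (∃ b, T x b) ∧ ρ x < ρ z)).card := by
    obtain ⟨t, ht⟩ : ∃ t : V → V, ∀ v, (∃ a, T a v ∧ ρ a < ρ z) → T (t v) v ∧ ρ (t v) < ρ z :=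
      ⟨fun v => if h : ∃ a, T a v ∧ ρ a < ρ z then Classical.choose h else v, by
        intro v h
        simp only [dif_pos h]
        exact Classical.choose_spec h⟩
    apply Finset.card_le_card_of_injOn t
    · intro v hv
      rw [Finset.mem_coe, Finset.mem_filter] at hv
      rw [Finset.mem_coe, Finset.mem_filter]
      have := ht v hv.2
      exact ⟨hG.row _ _ this.1, ⟨v, this.1⟩, this.2⟩
    · intro v hv w hw hvw
      rw [Finset.mem_coe, Finset.mem_filter] at hv hw
      have h6 := (ht v hv.2).1
      have h7 := (ht w hw.2).1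
      rw [hvw] at h6
      exact hG.lf.fn _ _ _ h6 h7
  have h6 : (X.filter (fun x => (∃ b, T x b) ∧ ρ x < ρ z)).card +
      ((X.filter (fun x => ∀ b, ¬ T x b)).filter (fun x => ρ x < ρ z)).card ≤
      (X.filter (fun x => ρ x < ρ z)).card := by
    rw [← Finset.card_union_of_disjoint]
    · apply Finset.card_le_card
      intro x hx
      rw [Finset.mem_union, Finset.mem_filter, Finset.mem_filter, Finset.mem_filter] at hx
      rw [Finset.mem_filter]
      rcases hx with ⟨h7, _, h8⟩ | ⟨⟨h7, _⟩, h8⟩
      · exact ⟨h7, h8⟩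
      · exact ⟨h7, h8⟩
    · rw [Finset.disjoint_left]
      intro x hx hx'
      rw [Finset.mem_filter] at hx
      rw [Finset.mem_filter, Finset.mem_filter] at hx'
      obtain ⟨b, hb⟩ := hx.2.1
      exact hx'.1.2 b hb
  unfold od
  omega

end Pool.Agent.NashSq
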