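import Mathlib
import Pool.Agent.NashSq.Insert

/-!
# Linear forests when the degrees have slack given by potentials

`cov_sq`: let `W` contain all vertices of `X ∩ K` on directed cycles inside `X ∩ K`, and let `f`,
`g`, `σ`, `τ` be nondecreasing with `∑_{j ≤ σ r} (f (r + j) - f r) > g |W| - g 1` and
`∑_{j ≤ τ r} (g (r + j) - g r) > f |W| - f 1` for `1 ≤ r ≤ |W|`. If the outdegrees in `X` and the
indegrees in `K` satisfy the weak condition after a reduction by about `σ` and `τ` for the vertices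
of `W` (and by at most one for the others), then some linear forest leaves every vertex of `X` and
enters every vertex of `K`.
-/

set_option autoImplicit false

namespace Pool.Agent.NashSq

open Finset Relation Pool.Agent.NashW Pool.Agent.NashF

variable {V : Type} [Fintype V]

open Classical in
/-- the order by reduced degree -/
theorem order_exists (d : V → ℕ) (S : V → ℕ → ℕ) (hS : ∀ v, Monotone (S v)) (X : Finset V)
    (h : ∀ i, (X.filter (fun v => d v ≤ i + S v i)).card ≤ i) :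
    ∃ ρ : V → ℕ, (∀ u v, ρ u = ρ v → u = v) ∧
      ∀ z ∈ X, (X.filter (fun x => ρ x < ρ z)).card + 1 +
        S z (X.filter (fun x => ρ x < ρ z)).card ≤ d z := by
  have hex : ∀ v, ∃ i, d v ≤ i + S v i := fun v => ⟨d v, Nat.le_add_right _ _⟩
  let κ : V → ℕ := fun v => Nat.find (hex v)
  have hκ : ∀ v i, κ v ≤ i → d v ≤ i + S v i := by
    intro v i hi
    have h1 := Nat.find_spec (hex v)
    have h2 : S v (κ v) ≤ S v i := hS v hi
    have h3 : d v ≤ κ v + S v (κ v) := h1
    omega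
  have hκ' : ∀ v i, i < κ v → i + S v i + 1 ≤ d v := by
    intro v i hi
    have h1 : ¬ d v ≤ i + S v i := Nat.find_min (hex v) hi
    omega
  let e := Fintype.equivFin V
  have he : ∀ v, (e v : ℕ) < Fintype.card V := fun v => (e v).2
  have hlt : ∀ u v, κ u < κ v →
      κ u * Fintype.card V + (e u : ℕ) < κ v * Fintype.card V + (e v : ℕ) := by
    intro u v huv
    have h1 : (κ u + 1) * Fintype.card V ≤ κ v * Fintype.card V :=
      Nat.mul_le_mul_right _ huv
    have h2 := he u
    rw [Nat.add_mul, Nat.one_mul] at h1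
    omega
  refine ⟨fun v => κ v * Fintype.card V + (e v : ℕ), ?_, ?_⟩
  · intro u v huv
    have huv' : κ u * Fintype.card V + (e u : ℕ) = κ v * Fintype.card V + (e v : ℕ) := huv
    have h1 : κ u = κ v := by
      rcases Nat.lt_trichotomy (κ u) (κ v) with h2 | h2 | h2
      · have := hlt u v h2; omega
      · exact h2
      · have := hlt v u h2; omega
    rw [h1] at huv'
    have h2 : (e u : ℕ) = e v := by omega
    exact e.injective (Fin.ext h2)
  · intro z hz
    have h1 : insert z (X.filter (fun x => κ x * Fintype.card V + (e x : ℕ) <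
        κ z * Fintype.card V + (e z : ℕ))) ⊆ X.filter (fun v => d v ≤ κ z + S v (κ z)) := by
      intro x hx
      rw [Finset.mem_insert, Finset.mem_filter] at hx
      rw [Finset.mem_filter]
      rcases hx with rfl | ⟨hx, h2⟩
      · exact ⟨hz, hκ _ _ (le_refl _)⟩
      · refine ⟨hx, hκ _ _ ?_⟩
        rcases Nat.lt_or_ge (κ z) (κ x) with h3 | h3
        · have := hlt z x h3; omega
        · exact h3
    have h2 := Finset.card_le_card h1
    rw [Finset.card_insert_of_notMem (by rw [Finset.mem_filter]; rintro ⟨_, h3⟩; omega)] at h2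
    have h3 := h (κ z)
    have h4 := hκ' z (X.filter (fun x => κ x * Fintype.card V + (e x : ℕ) <
        κ z * Fintype.card V + (e z : ℕ))).card (by omega)
    show (X.filter (fun x => κ x * Fintype.card V + (e x : ℕ) <
        κ z * Fintype.card V + (e z : ℕ))).card + 1 + S z (X.filter (fun x =>
        κ x * Fintype.card V + (e x : ℕ) < κ z * Fintype.card V + (e z : ℕ))).card ≤ d z
    omega

open Classical in
/-- the rank inside `W` -/
noncomputable def rk (W : Finset V) (ρ : V → ℕ) (v : V) : ℕ := (W.filter (fun w => ρ w ≤ ρ v)).card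

theorem rk_mono (W : Finset V) (ρ : V → ℕ) {u v : V} (h : ρ u ≤ ρ v) : rk W ρ u ≤ rk W ρ v := by
  classical
  unfold rk
  apply Finset.card_le_card
  intro w hw
  rw [Finset.mem_filter] at hw ⊢
  exact ⟨hw.1, hw.2.trans h⟩

theorem rk_lt (W : Finset V) (ρ : V → ℕ) {u v : V} (hv : v ∈ W) (h : ρ u < ρ v) :
    rk W ρ u < rk W ρ v := by
  classical
  unfold rk
  apply Finset.card_lt_card
  rw [Finset.ssubset_iff_of_subset]
  · refine ⟨v, ?_, ?_⟩
    · rw [Finset.mem_filter]; exact ⟨hv, le_refl _⟩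
    · rw [Finset.mem_filter]; rintro ⟨_, h1⟩; omega
  · intro w hw
    rw [Finset.mem_filter] at hw ⊢
    exact ⟨hw.1, hw.2.trans h.le⟩

theorem rk_pos (W : Finset V) (ρ : V → ℕ) {v : V} (hv : v ∈ W) : 1 ≤ rk W ρ v := by
  classical
  unfold rk
  exact Finset.card_pos.mpr ⟨v, by rw [Finset.mem_filter]; exact ⟨hv, le_refl _⟩⟩

theorem rk_le (W : Finset V) (ρ : V → ℕ) (v : V) : rk W ρ v ≤ W.card := by
  classical
  unfold rk
  exact Finset.card_filter_le _ _

open Classical in
theorem rk_le_rank (W X : Finset V) (hWX : W ⊆ X) (ρ : V → ℕ) (hρ : ∀ u v, ρ u = ρ v → u = v)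
    (z : V) : rk W ρ z ≤ (X.filter (fun x => ρ x < ρ z)).card + 1 := by
  unfold rk
  have h1 : W.filter (fun w => ρ w ≤ ρ z) ⊆ insert z (X.filter (fun x => ρ x < ρ z)) := by
    intro w hw
    rw [Finset.mem_filter] at hw
    rw [Finset.mem_insert, Finset.mem_filter]
    rcases Nat.lt_or_ge (ρ w) (ρ z) with h | h
    · exact Or.inr ⟨hWX hw.1, h⟩
    · exact Or.inl (hρ _ _ (by omega))
  exact (Finset.card_le_card h1).trans (Finset.card_insert_le _ _)

/-- a finite strict linear order is given by a weight -/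
theorem rank_fun {α : Type} [Fintype α] (L : α → α → Prop) (hirr : ∀ a, ¬ L a a)
    (htr : ∀ a b c, L a b → L b c → L a c) (htri : ∀ a b, L a b ∨ a = b ∨ L b a) :
    ∃ P : α → ℕ, ∀ a b, P a < P b ↔ L a b := by
  classical
  have h1 : ∀ a b, L a b → (univ.filter (fun x => L x a)).card <
      (univ.filter (fun x => L x b)).card := by
    intro a b hab
    apply Finset.card_lt_card
    rw [Finset.ssubset_iff_of_subset]
    · refine ⟨a, ?_, ?_⟩
      · rw [Finset.mem_filter]; exact ⟨Finset.mem_univ _, hab⟩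
      · rw [Finset.mem_filter]; rintro ⟨_, h⟩; exact hirr _ h
    · intro x hx
      rw [Finset.mem_filter] at hx ⊢
      exact ⟨hx.1, htr _ _ _ hx.2 hab⟩
  refine ⟨fun a => (univ.filter (fun x => L x a)).card, fun a b => ⟨?_, h1 a b⟩⟩
  intro h
  rcases htri a b with h2 | rfl | h2
  · exact h2
  · exact absurd h (lt_irrefl _)
  · exact absurd (h1 _ _ h2) (by
      have h' : (univ.filter (fun x => L x a)).card < (univ.filter (fun x => L x b)).card := h
      omega)

/-- a weight compatible with both orders and with the sum of the potentials -/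
theorem weight_exists (ρ γ : V → ℕ) (hρ : ∀ u v, ρ u = ρ v → u = v)
    (hγ : ∀ u v, γ u = γ v → u = v) (F G : V → ℝ) (hF : ∀ u v, ρ u ≤ ρ v → F u ≤ F v)
    (hG : ∀ u v, γ u ≤ γ v → G u ≤ G v) :
    ∃ P : V → V → ℕ, (∀ a b b', P a b < P a b' ↔ γ b < γ b') ∧
      (∀ a a' b, P a b < P a' b ↔ ρ a < ρ a') ∧
      (∀ a b a' b', P a b = P a' b' → a = a' ∧ b = b') ∧
      (∀ a b a' b', P a b < P a' b' → F a + G b ≤ F a' + G b') := by
  obtain ⟨P, hP⟩ := rank_fun (α := V × V)
    (fun e e' => F e.1 + G e.2 < F e'.1 + G e'.2 ∨ (F e.1 + G e.2 = F e'.1 + G e'.2 ∧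
      (ρ e.1 < ρ e'.1 ∨ (ρ e.1 = ρ e'.1 ∧ γ e.2 < γ e'.2))))
    (by
      rintro a (h | ⟨_, h | ⟨_, h⟩⟩)
      · exact lt_irrefl _ h
      · exact lt_irrefl _ h
      · exact lt_irrefl _ h)
    (by
      rintro a b c (h | ⟨h, h'⟩) (k | ⟨k, k'⟩)
      · exact Or.inl (h.trans k)
      · exact Or.inl (by rw [← k]; exact h)
      · exact Or.inl (by rw [h]; exact k)
      · refine Or.inr ⟨h.trans k, ?_⟩
        omega)
    (by
      intro a b
      rcases lt_trichotomy (F a.1 + G a.2) (F b.1 + G b.2) with h | h | h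
      · exact Or.inl (Or.inl h)
      · rcases Nat.lt_trichotomy (ρ a.1) (ρ b.1) with h1 | h1 | h1
        · exact Or.inl (Or.inr ⟨h, Or.inl h1⟩)
        · rcases Nat.lt_trichotomy (γ a.2) (γ b.2) with h2 | h2 | h2
          · exact Or.inl (Or.inr ⟨h, Or.inr ⟨h1, h2⟩⟩)
          · exact Or.inr (Or.inl (Prod.ext (hρ _ _ h1) (hγ _ _ h2)))
          · exact Or.inr (Or.inr (Or.inr ⟨h.symm, Or.inr ⟨h1.symm, h2⟩⟩))
        · exact Or.inr (Or.inr (Or.inr ⟨h.symm, Or.inl h1⟩))
      · exact Or.inr (Or.inr (Or.inl h)))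
  have hcol : ∀ a b b', γ b < γ b' → P (a, b) < P (a, b') := by
    intro a b b' h
    rw [hP]
    rcases lt_or_eq_of_le (hG b b' h.le) with h1 | h1
    · left
      show F a + G b < F a + G b'
      linarith
    · right
      exact ⟨by show F a + G b = F a + G b'; rw [h1], Or.inr ⟨rfl, h⟩⟩
  have hrow : ∀ a a' b, ρ a < ρ a' → P (a, b) < P (a', b) := by
    intro a a' b h
    rw [hP]
    rcases lt_or_eq_of_le (hF a a' h.le) with h1 | h1
    · left
      show F a + G b < F a' + G b
      linarith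
    · right
      exact ⟨by show F a + G b = F a' + G b; rw [h1], Or.inl h⟩
  refine ⟨fun a b => P (a, b), ?_, ?_, ?_, ?_⟩
  · intro a b b'
    refine ⟨fun h => ?_, hcol a b b'⟩
    rcases Nat.lt_trichotomy (γ b) (γ b') with h1 | h1 | h1
    · exact h1
    · rw [hγ _ _ h1] at h; exact absurd h (lt_irrefl _)
    · exact absurd (hcol a b' b h1) (by
        have h' : P (a, b) < P (a, b') := h
        omega)
  · intro a a' b
    refine ⟨fun h => ?_, hrow a a' b⟩
    rcases Nat.lt_trichotomy (ρ a) (ρ a') with h1 | h1 | h1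
    · exact h1
    · rw [hρ _ _ h1] at h; exact absurd h (lt_irrefl _)
    · exact absurd (hrow a' a b h1) (by
        have h' : P (a, b) < P (a', b) := h
        omega)
  · intro a b a' b' h
    have h' : P (a, b) = P (a', b') := h
    by_contra hcon
    have h1 : ¬ P (a, b) < P (a', b') := by omega
    have h2 : ¬ P (a', b') < P (a, b) := by omega
    rw [hP] at h1 h2
    push Not at h1 h2
    have h3 : F a + G b = F a' + G b' := le_antisymm h2.1 h1.1
    have h4 := h1.2 h3
    have h5 := h2.2 h3.symm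
    have h6 : a = a' := hρ _ _ (by
      have h7 : ρ a' ≤ ρ a := h4.1
      have h8 : ρ a ≤ ρ a' := h5.1
      omega)
    subst h6
    exact hcon ⟨rfl, hγ _ _ (by
      have h7 : γ b' ≤ γ b := h4.2 rfl
      have h8 : γ b ≤ γ b' := h5.2 rfl
      omega)⟩
  · intro a b a' b' h
    have h' : P (a, b) < P (a', b') := h
    rw [hP] at h'
    rcases h' with h1 | ⟨h1, _⟩
    · exact h1.le
    · exact h1.le

open Classical in
/-- the number of closings at an uncovered row is at most the slack -/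
theorem cl_le {E : V → V → Prop} {X K : Finset V} {P : V → V → ℕ} {T : V → V → Prop}
    (hG : Gr E X K P T) (W : Finset V) (hWX : W ⊆ X)
    (hW : ∀ v, TransGen (In E X K) v v → v ∈ W) (ρ γ : V → ℕ) (f g : ℕ → ℝ)
    (hf : Monotone f) (hg : Monotone g) (σ : ℕ → ℕ) (hσ : Monotone σ) (N : ℕ) (hN : W.card ≤ N)
    (hρ : ∀ u v, ρ u = ρ v → u = v)
    (hPr : ∀ a b b', P a b < P a b' ↔ γ b < γ b')
    (hPc : ∀ a a' b, P a b < P a' b ↔ ρ a < ρ a')
    (hPi : ∀ a b a' b', P a b = P a' b' → a = a' ∧ b = b')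
    (hPm : ∀ a b a' b', P a b < P a' b' →
      f (rk W ρ a) + g (rk W γ b) ≤ f (rk W ρ a') + g (rk W γ b'))
    (hfg : ∀ r, 1 ≤ r → r ≤ N → g N - g 1 < ∑ j ∈ Finset.range (σ r), (f (r + j + 1) - f r))
    (z : V) (hzX : z ∈ X) (hz : ∀ b, ¬ T z b) :
    Cl E K P T z = ∅ ∨ (z ∈ K ∧ z ∈ W ∧
      (Cl E K P T z).card ≤ min (σ ((X.filter (fun x => ρ x < ρ z)).card + 1))
        (W.filter (fun u => E z u)).card) := by
  by_cases hemp : Cl E K P T z = ∅
  · exact Or.inl hemp
  right
  have hne := Finset.nonempty_iff_ne_empty.mpr hemp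
  have hpos := Finset.card_pos.mpr hne
  obtain ⟨h1, h2, h3⟩ := cl_bound hG W hW ρ γ (rk W ρ) (rk W γ) f g hf hg hPr hPc hPi hPm
    (fun u _ v hv h => rk_lt W ρ hv h) (fun v hv => rk_pos W γ hv) N
    (fun v _ => (rk_le W γ v).trans hN)
    z hzX hz ((Cl E K P T z).card - 1) (by omega)
  refine ⟨?_, h1, le_min ?_ ?_⟩
  · obtain ⟨k, hk⟩ := hne
    rw [mem_Cl] at hk
    exact reach_head hG hk.1 (lo_all hk.2.2.2)
  · have h4 := hσ (rk_le_rank W X hWX ρ hρ z)
    have h5 := hfg (rk W ρ z) (rk_pos W ρ h1) ((rk_le W ρ z).trans hN)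
    by_contra hcon
    have h6 := sum_range_mono f hf (rk W ρ z) (σ (rk W ρ z)) ((Cl E K P T z).card - 1) (by omega)
    linarith
  · apply Finset.card_le_card
    intro k hk
    rw [Finset.mem_filter]
    refine ⟨h2 k hk, ?_⟩
    rw [mem_Cl] at hk
    exact hk.2.1

open Classical in
/-- **Linear forests with slack.** -/
theorem cov_sq (E : V → V → Prop) (X K W : Finset V) (f g : ℕ → ℝ) (σ τ : ℕ → ℕ)
    (s t : V → ℕ → ℕ) (hloop : ∀ v, ¬ E v v)
    (hW : ∀ v, TransGen (In E X K) v v → v ∈ W)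
    (hf : Monotone f) (hg : Monotone g) (hσ : Monotone σ) (hτ : Monotone τ)
    (hfg : ∀ r, 1 ≤ r → r ≤ W.card →
      g W.card - g 1 < ∑ j ∈ Finset.range (σ r), (f (r + j + 1) - f r))
    (hgf : ∀ r, 1 ≤ r → r ≤ W.card →
      f W.card - f 1 < ∑ j ∈ Finset.range (τ r), (g (r + j + 1) - g r))
    (hs : ∀ v ∈ X, v ∈ K → ∀ i,
      1 + (if v ∈ W then min (σ (i + 1)) (W.filter (fun u => E v u)).card else 0) ≤ s v i)
    (ht : ∀ v ∈ K, v ∈ X → ∀ i, (if ∃ e ∈ K, e ∉ X ∧ E e v then 1 else 0) +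
      (if v ∈ W then min (τ (i + 1)) (W.filter (fun u => E u v)).card else 0) ≤ t v i)
    (hsm : ∀ v, Monotone (s v)) (htm : ∀ v, Monotone (t v))
    (hX : ∀ i, (X.filter (fun v => od E v ≤ i + s v i)).card ≤ i)
    (hK : ∀ i, (K.filter (fun v => ideg E v ≤ i + t v i)).card ≤ i) : Cov E X K := by
  obtain ⟨ρ, hρ, hρr⟩ := order_exists (od E) s hsm X hX
  obtain ⟨γ, hγ, hγr⟩ := order_exists (ideg E) t htm K hK
  obtain ⟨W₀, hW₀⟩ : ∃ W₀ : Finset V, W₀ = W ∩ (X ∩ K) := ⟨_, rfl⟩
  have hW₀W : W₀ ⊆ W := by rw [hW₀]; exact Finset.inter_subset_left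
  have hW₀X : W₀ ⊆ X := by
    rw [hW₀]; exact Finset.inter_subset_right.trans Finset.inter_subset_left
  have hW₀K : W₀ ⊆ K := by
    rw [hW₀]; exact Finset.inter_subset_right.trans Finset.inter_subset_right
  have hN := Finset.card_le_card hW₀W
  have hWc : ∀ v, TransGen (In E X K) v v → v ∈ W₀ := by
    intro v hv
    rw [hW₀, Finset.mem_inter, Finset.mem_inter]
    obtain ⟨w, hw, _⟩ := TransGen.head'_iff.mp hv
    exact ⟨hW v hv, hw.1.1, hw.1.2⟩
  obtain ⟨P, hPr, hPc, hPi, hPm⟩ := weight_exists ρ γ hρ hγ (fun v => f (rk W₀ ρ v))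
    (fun v => g (rk W₀ γ v)) (fun u v h => hf (rk_mono W₀ ρ h)) (fun u v h => hg (rk_mono W₀ γ h))
  obtain ⟨T, hG⟩ := gr_exists E X K P hPi
  have hG' := hG.flip
  -- rows
  have hrow : ∀ z ∈ X, (∀ b, ¬ T z b) →
      (Cl E K P T z).card + (if z ∈ K then 1 else 0) ≤
        s z (X.filter (fun x => ρ x < ρ z)).card := by
    intro z hzX hz
    rcases cl_le hG W₀ hW₀X hWc ρ γ f g hf hg σ hσ W.card hN hρ hPr hPc hPi hPm hfg z hzX hz with
      h | ⟨h1, h2, h3⟩
    · rw [h, Finset.card_empty]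
      by_cases hzK : z ∈ K
      · have := hs z hzX hzK (X.filter (fun x => ρ x < ρ z)).card
        rw [if_pos hzK]; omega
      · rw [if_neg hzK]; omega
    · have h4 := hs z hzX h1 (X.filter (fun x => ρ x < ρ z)).card
      have h5 := Finset.card_le_card (Finset.filter_subset_filter (fun u => E z u) hW₀W)
      rw [if_pos (hW₀W h2)] at h4
      rw [if_pos h1]
      omega
  -- columns
  have hW' : ∀ v, TransGen (In (fun a b => E b a) K X) v v → v ∈ W₀ := by
    intro v hv
    apply hWc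
    have h1 : TransGen (Function.swap (In E X K)) v v :=
      TransGen.lift id (fun x y h => ⟨⟨h.2.1.2, h.2.1.1⟩, ⟨h.1.2, h.1.1⟩, h.2.2⟩) v v hv
    exact transGen_swap.mp h1
  have hcol : ∀ z ∈ K, (∀ a, ¬ T a z) →
      (Cl (fun a b => E b a) X (fun a b => P b a) (fun a b => T b a) z).card +
        (if z ∈ X ∧ ∃ e ∈ K, e ∉ X ∧ E e z then 1 else 0) ≤
        t z (K.filter (fun x => γ x < γ z)).card := by
    intro z hzK hz
    rcases cl_le hG' W₀ hW₀K hW' γ ρ g f hg hf τ hτ W.card hN hγ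
      (fun a b b' => hPc b b' a) (fun a a' b => hPr b a a')
      (fun a b a' b' h => ⟨(hPi _ _ _ _ h).2, (hPi _ _ _ _ h).1⟩)
      (fun a b a' b' h => by
        have := hPm _ _ _ _ h
        linarith) hgf z hzK hz with h | ⟨h1, h2, h3⟩
    · rw [h, Finset.card_empty]
      by_cases hzX : z ∈ X
      · have h4 := ht z hzK hzX (K.filter (fun x => γ x < γ z)).card
        by_cases h5 : ∃ e ∈ K, e ∉ X ∧ E e z
        · rw [if_pos h5] at h4
          rw [if_pos ⟨hzX, h5⟩]; omega
        · rw [if_neg (fun h6 => h5 h6.2)]; omega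
      · rw [if_neg (fun h6 => hzX h6.1)]; omega
    · have h4 := ht z hzK h1 (K.filter (fun x => γ x < γ z)).card
      have h6 := Finset.card_le_card (Finset.filter_subset_filter (fun u => E u z) hW₀W)
      rw [if_pos (hW₀W h2)] at h4
      by_cases h5 : ∃ e ∈ K, e ∉ X ∧ E e z
      · rw [if_pos h5] at h4
        rw [if_pos ⟨h1, h5⟩]; omega
      · rw [if_neg h5] at h4
        rw [if_neg (fun h6 => h5 h6.2)]; omega
  -- insertion at the columns
  obtain ⟨F₁, hF₁, h11, h12, h13⟩ := ins (fun a b => E b a) (fun v h => hloop v h) X K γ hγ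
    _ (K.filter (fun k => ∀ a, ¬ T a k)) (fun a b => T b a) ∅ rfl hG'.lf hG'.row
    (Finset.filter_subset _ _)
    (fun z hz b => (Finset.mem_filter.mp hz).2 b)
    (fun a v hv h => absurd (hG.row _ _ h) hv)
    (by
      intro z hz
      rw [Finset.mem_filter] at hz
      have h1 := outer_deg hG' γ (fun a a' b => hPr b a a') z hz.1 hz.2
      have h2 := hγr z hz.1
      have h3 := hcol z hz.1 hz.2
      have h4 : od (fun a b => E b a) z = ideg E z := rfl
      rw [Finset.card_empty]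
      omega)
  have hF₁' : LFor E (fun a b => F₁ b a) := lfor_flip hF₁
  obtain ⟨F₂, hF₂, h21, h22, _⟩ := ins E hloop K Finset.univ ρ hρ
    _ (X.filter (fun x => ∀ b, ¬ T x b)) (fun a b => F₁ b a) ∅ rfl hF₁'
    (fun _ _ _ => Finset.mem_univ _) (Finset.subset_univ _)
    (by
      intro z hz b h
      rw [Finset.mem_filter] at hz
      rcases h13 _ _ h with h1 | ⟨_, h1⟩
      · exact hz.2 _ h1
      · exact h1 hz.1)
    (by
      intro a v hv h
      rcases h13 _ _ h with h1 | ⟨h1, _⟩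
      · exact absurd (hG.col _ _ h1) hv
      · exact absurd (Finset.mem_filter.mp h1).1 hv)
    (by
      intro z hz
      rw [Finset.mem_filter] at hz
      have h1 := outer_deg hG ρ hPc z hz.1 hz.2
      have h2 := hρr z hz.1
      have h3 := hrow z hz.1 hz.2
      rw [Finset.card_empty]
      by_cases hzK : z ∈ K
      · rw [if_pos hzK] at h3
        split_ifs <;> omega
      · rw [if_neg (fun h => hzK h.1)]
        omega)
  refine ⟨F₂, hF₂, ?_, ?_⟩
  · intro x hx
    by_cases h : ∃ b, T x b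
    · obtain ⟨b, hb⟩ := h
      exact ⟨b, h21 _ _ (h11 _ _ hb)⟩
    · push Not at h
      exact h22 x (Finset.mem_filter.mpr ⟨hx, h⟩)
  · intro k hk
    by_cases h : ∃ a, T a k
    · obtain ⟨a, ha⟩ := h
      exact ⟨a, h21 _ _ (h11 _ _ ha)⟩
    · push Not at h
      obtain ⟨a, ha⟩ := h12 k (Finset.mem_filter.mpr ⟨hk, h⟩)
      exact ⟨a, h21 _ _ ha⟩

end Pool.Agent.NashSq
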